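import Mathlib

set_option autoImplicit false

namespace Pool.Agent.Results.MP_b2f6ce_nt.Counter

/-- The triples (a, q, p) with a, q at least 1 and n = 2 p q a + a q + q + p. -/
def Sol (n : ℕ) : Set (ℕ × ℕ × ℕ) :=
  {t | 1 ≤ t.1 ∧ 1 ≤ t.2.1 ∧ n = 2 * t.2.2 * t.2.1 * t.1 + t.1 * t.2.1 + t.2.1 + t.2.2}

def good (a p : ℕ) : Bool :=
  (a == 99576 && p == 0) || (a == 1 && p == 1) || (a == 307 && p == 1) || (a == 1229 && p == 1) ||
  (a == 655 && p == 9) || (a == 4 && p == 39) || (a == 17 && p == 97) || (a == 9 && p == 913)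

def inner (p : ℕ) : ℕ → Bool
  | 0 => true
  | a + 1 => ((99577 - p) % ((a + 1) * (2 * p + 1) + 1) != 0 || good (a + 1) p) && inner p a

def outer : ℕ → Bool
  | 0 => true
  | p + 1 => inner p ((99577 - p) / (2 * p + 1)) && outer p

lemma inner_spec (p : ℕ) : ∀ A, inner p A = true → ∀ a, 1 ≤ a → a ≤ A →
    (99577 - p) % (a * (2 * p + 1) + 1) = 0 → good a p = true := by
  intro A
  induction A with
  | zero => intro _ a h1 h2; omega
  | succ A ih =>
    intro h a h1 h2 h3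
    simp only [inner, Bool.and_eq_true, Bool.or_eq_true, bne_iff_ne] at h
    rcases Nat.lt_or_ge a (A + 1) with h4 | h4
    · exact ih h.2 a h1 (by omega) h3
    · obtain rfl : a = A + 1 := by omega
      rcases h.1 with h5 | h5
      · exact absurd h3 h5
      · exact h5

lemma outer_spec : ∀ P, outer P = true → ∀ p < P,
    inner p ((99577 - p) / (2 * p + 1)) = true := by
  intro P
  induction P with
  | zero => intro _ p h; omega
  | succ P ih =>
    intro h p hp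
    simp only [outer, Bool.and_eq_true] at h
    rcases Nat.lt_or_ge p P with h4 | h4
    · exact ih h.2 p h4
    · obtain rfl : p = P := by omega
      exact h.1

lemma check : outer 33200 = true := by decide +kernel

lemma sol_eq : Sol 99577 = ↑({(99576, 1, 0), (1, 24894, 1), (307, 108, 1), (1229, 27, 1),
    (655, 8, 9), (4, 314, 39), (17, 30, 97), (9, 6, 913)} : Finset (ℕ × ℕ × ℕ)) := by
  ext ⟨a, q, p⟩
  simp only [Sol, Set.mem_ofPred_eq, Finset.coe_insert, Finset.coe_singleton, Set.mem_insert_iff,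
    Set.mem_singleton_iff, Prod.mk.injEq]
  constructor
  · rintro ⟨ha, hq, h⟩
    have e : 99577 - p = (a * (2 * p + 1) + 1) * q := by
      have : (a * (2 * p + 1) + 1) * q = 2 * p * q * a + a * q + q := by ring
      omega
    have h1 : a * (2 * p + 1) + 1 ≤ 99577 - p := by
      rw [e]; exact Nat.le_mul_of_pos_right _ hq
    have h2 : 2 * p + 1 ≤ a * (2 * p + 1) := Nat.le_mul_of_pos_left _ ha
    have h3 := inner_spec p _ (outer_spec _ check p (by omega)) a ha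
      ((Nat.le_div_iff_mul_le (by omega)).2 (by omega)) (by rw [e]; simp)
    simp only [good, Bool.or_eq_true, Bool.and_eq_true, beq_iff_eq] at h3
    rcases h3 with ((((((⟨rfl, rfl⟩ | ⟨rfl, rfl⟩) | ⟨rfl, rfl⟩) | ⟨rfl, rfl⟩) | ⟨rfl, rfl⟩) |
      ⟨rfl, rfl⟩) | ⟨rfl, rfl⟩) | ⟨rfl, rfl⟩ <;> omega
  · rintro (⟨rfl, rfl, rfl⟩ | ⟨rfl, rfl, rfl⟩ | ⟨rfl, rfl, rfl⟩ | ⟨rfl, rfl, rfl⟩ |
      ⟨rfl, rfl, rfl⟩ | ⟨rfl, rfl, rfl⟩ | ⟨rfl, rfl, rfl⟩ | ⟨rfl, rfl, rfl⟩) <;> norm_num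

/-- For n = 99577 one has a_n = 9 and the floor of log n is 11. -/
theorem result :
    ∃ n : ℕ, 1 ≤ n ∧ (Sol n).Finite ∧ ((Sol n).ncard + 1 : ℤ) ≤ ⌊Real.log n⌋ - 2 := by
  refine ⟨99577, by norm_num, by rw [sol_eq]; exact Finset.finite_toSet _, ?_⟩
  rw [sol_eq, Set.ncard_coe_finset]
  have h1 : (11 : ℤ) ≤ ⌊Real.log (99577 : ℕ)⌋ := by
    rw [Int.le_floor, Real.le_log_iff_exp_le (by norm_num)]
    have h := Real.exp_one_lt_d9
    have e : Real.exp ((11 : ℤ) : ℝ) = Real.exp 1 ^ 11 := by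
      rw [← Real.exp_nat_mul]; norm_num
    rw [e]
    calc Real.exp 1 ^ 11 ≤ (2.7182818286 : ℝ) ^ 11 := by gcongr
      _ ≤ _ := by norm_num
  have h2 : ({(99576, 1, 0), (1, 24894, 1), (307, 108, 1), (1229, 27, 1),
    (655, 8, 9), (4, 314, 39), (17, 30, 97), (9, 6, 913)} : Finset (ℕ × ℕ × ℕ)).card = 8 := by
    decide
  rw [h2]
  omega

end Pool.Agent.Results.MP_b2f6ce_nt.Counter
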